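import Pool.Agent.U73.LS.FamLaw
import Pool.Agent.U73.LS.Stm2

set_option autoImplicit false

/-!
# Packages for the semistable curves ordered by the conductor (helper73)

`cnt`, `box`, `Per`, `rc` are in `Pool/Agent/U73/LR/Per.lean`, `Sm` (the invariants of the semistable curves) in
`Pool/Agent/U73/LS/Kr.lean`, `rs` (the ratio `|Δ| / N`), `Nz` (the conductor), `Dz`, `G` in `Pool/Agent/U73/LS/Stm2.lean`.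
-/

namespace Pool.Agent.U73.LC

open Finset Filter Topology
open Pool.Agent.U73.LR Pool.Agent.U73.LS

/-- the sign of `a³ - b²` -/
def Sg : Bool → ℤ → ℤ → Prop
  | true, a, b => b ^ 2 < a ^ 3
  | false, a, b => a ^ 3 < b ^ 2

/-- the length of `{v : 0 < ± (u³ - v²) ≤ 1}` (square roots of negative numbers are `0`) -/
noncomputable def Ls : Bool → ℝ → ℝ
  | true, u => 2 * (√(u ^ 3) - √(u ^ 3 - 1))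
  | false, u => 2 * (√(u ^ 3 + 1) - √(u ^ 3))

/-- SLICE: the `b` for one `a` -/
def S_SLICE : Prop := ∀ (s : Bool) (m : ℕ) (β a : ℤ) (T : ℝ), 1 ≤ m → 1 ≤ T →
  {b : ℤ | b ≡ β [ZMOD m] ∧ Sg s a b ∧ |(a : ℝ) ^ 3 - (b : ℝ) ^ 2| ≤ T ^ 6}.Finite ∧
  |(({b : ℤ | b ≡ β [ZMOD m] ∧ Sg s a b ∧ |(a : ℝ) ^ 3 - (b : ℝ) ^ 2| ≤ T ^ 6}.ncard : ℕ) : ℝ) -
    T ^ 3 * Ls s (a / T ^ 2) / m| ≤ 8

/-- RIE: Riemann sums over arithmetic progressions -/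
def S_RIE : Prop := ∀ f : ℝ → ℝ, Continuous f → ∀ (m : ℕ) (α : ℤ) (M : ℝ), 1 ≤ m → 1 ≤ M →
  Tendsto (fun T : ℝ => (∑ a ∈ (Icc (-⌊M * T ^ 2⌋) ⌊M * T ^ 2⌋).filter (fun a : ℤ => a ≡ α [ZMOD m]),
    f (a / T ^ 2)) / T ^ 2) atTop (𝓝 (1 / m * ∫ u in (-M)..M, f u))

/-- REG: the region `0 < ± (a³ - b²) ≤ T⁶`, `|a| ≤ M T²` -/
def S_REG : Prop := ∀ (s : Bool) (M : ℝ), 1 ≤ M → ∀ (m : ℕ) (P : ℤ → ℤ → Prop), 0 < m → Per m P →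
  Tendsto (fun T : ℝ => cnt ((M + 1) * T) (fun a b => |(a : ℝ)| ≤ M * T ^ 2 ∧ Sg s a b ∧
    |(a : ℝ) ^ 3 - (b : ℝ) ^ 2| ≤ T ^ 6 ∧ P a b) / T ^ 5) atTop (𝓝 (rc m P * ∫ u in (-M)..M, Ls s u))

/-- CUSP: the pairs with large `a` -/
def S_CUSP : Prop := ∃ C : ℝ, 0 < C ∧ ∀ Z T M : ℝ, 1 ≤ Z → 1 ≤ T → 2 ≤ M →
  cnt Z (fun a b => M * T ^ 2 < |(a : ℝ)| ∧ |(a : ℝ) ^ 3 - (b : ℝ) ^ 2| ≤ T ^ 6) ≤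
    C * (T ^ 5 / √M + Z ^ 2)

/-- PER: the semistable pairs with small discriminant for which `n` divides the ratio -/
def S_PER : Prop := ∃ C : ℝ, 0 < C ∧ ∀ (Z T : ℝ) (n : ℕ), 1 ≤ Z → 1 ≤ T → 1 ≤ n →
  cnt Z (fun a b => Sm a b ∧ |(a : ℝ) ^ 3 - (b : ℝ) ^ 2| ≤ T ^ 6 ∧ n ∣ rs a b) ≤
    C * 2 ^ n.primeFactors.card * (T ^ 5 / ((n : ℝ) * ∏ p ∈ n.primeFactors, (p : ℝ)) + Z ^ 2)

/-- LPS: large square divisors -/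
def S_LPS : Prop := ∀ ε : ℝ, 0 < ε → ∃ C : ℝ, 0 < C ∧ ∀ Z P : ℝ, 1 ≤ Z → 1 ≤ P →
  cnt Z (fun a b => a ≠ 0 ∧ a ^ 3 ≠ b ^ 2 ∧ ∃ p : ℕ, P ≤ p ∧ (p : ℤ) ^ 2 ∣ a ^ 3 - b ^ 2) ≤
    C * Z ^ (8 + ε) / P ^ 2

/-- GS: sums over the divisors -/
def S_GS : Prop := ∀ ε : ℝ, 0 < ε → ∃ C : ℝ, 0 < C ∧
  (∀ (K : ℝ) (F : Finset ℕ), 1 ≤ K → (∀ n ∈ F, K ≤ (n : ℝ)) →
    ∑ n ∈ F, (2 : ℝ) ^ n.primeFactors.card / ((n : ℝ) * ∏ p ∈ n.primeFactors, (p : ℝ)) ≤ C * K ^ (-1 + ε)) ∧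
  ∀ n : ℕ, 1 ≤ n → (2 : ℝ) ^ n.primeFactors.card ≤ C * (n : ℝ) ^ ε

/-- TY: the uniform tail in the region -/
def S_TY : Prop := ∀ ε : ℝ, 0 < ε → ∃ C : ℝ, 0 < C ∧ ∀ Z T K : ℝ, 1 ≤ Z → 1 ≤ T → 1 ≤ K →
  cnt Z (fun a b => Sm a b ∧ |(a : ℝ) ^ 3 - (b : ℝ) ^ 2| ≤ T ^ 6 ∧ K ≤ rs a b) ≤
    C * (T ^ 5 * K ^ (-1 + ε) + Z ^ (4 + ε))

/-- TN: the uniform tail by the conductor -/
def S_TN : Prop := ∀ κ ε : ℝ, 1 < κ → κ < 5 / 4 → 0 < ε → ∃ C : ℝ, 0 < C ∧ ∀ X K : ℝ, 1 ≤ X → 1 ≤ K →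
  cnt (X ^ (κ / 6)) (fun a b => Sm a b ∧ (Nz a b : ℝ) ≤ X ∧ K ≤ rs a b) ≤
    C * (X ^ (5 / 6 : ℝ) * K ^ (-(1 / 6) + ε) + X ^ (2 * κ / 3 + ε))

/-- `B(1/6, 1/2)` -/
noncomputable def Bc : ℝ := Real.Gamma (1 / 6) * Real.Gamma (1 / 2) / Real.Gamma (2 / 3)

/-- AREA: the areas of the regions -/
def S_AREA : Prop :=
  Tendsto (fun M : ℝ => ∫ u in (-M)..M, Ls true u) atTop (𝓝 (2 / 5 * Bc)) ∧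
  Tendsto (fun M : ℝ => ∫ u in (-M)..M, Ls false u) atTop (𝓝 (√3 * (2 / 5 * Bc)))

/-- EUP: the Euler product of the constant -/
def S_EUP : Prop := ∀ μ : ℕ → ℝ, (∀ m, 0 ≤ μ m) → μ 0 = 0 → HasSum μ 1 →
  Tendsto (fun z => ∏ p ∈ Nat.primesBelow z, (1 - 1 / ((p : ℝ) * ((p : ℝ) + 1)))) atTop (𝓝 (μ 1)) →
  (∀ n : ℕ, 1 ≤ n → μ n = μ 1 / n * ∏ p ∈ n.primeFactors, (((p : ℝ) - 1) / ((p : ℝ) ^ 2 + p - 1))) →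
  Summable (fun n : ℕ => (n : ℝ) ^ (5 / 6 : ℝ) * μ n) ∧
  Tendsto (fun z => ∏ p ∈ Nat.primesBelow z,
    (1 + (((p : ℝ) - 1) / ((p : ℝ) ^ (1 / 6 : ℝ) - 1) - 1) / ((p : ℝ) * ((p : ℝ) + 1)))) atTop
    (𝓝 (∑' n : ℕ, (n : ℝ) ^ (5 / 6 : ℝ) * μ n))

/-- FREG: the pairs with `r = n` in a region -/
def S_FREG : Prop := ∀ (F : Fam) (R : ℝ → ℤ → ℤ → Prop) (α : ℝ),
  (∀ (m : ℕ) (P : ℤ → ℤ → Prop), 0 < m → Per m P →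
    Tendsto (fun X : ℝ => cnt X (fun a b => R X a b ∧ P a b) / X ^ 5) atTop (𝓝 (α * rc m P))) →
  ∀ (n : ℕ) (D : ℝ), 1 ≤ n → Tendsto (fun X : ℝ => cnt X (F.PM n) / X ^ 5) atTop (𝓝 (4 * D)) →
    Tendsto (fun X : ℝ => cnt X (fun a b => R X a b ∧ F.PM n a b) / X ^ 5) atTop (𝓝 (α * D))

end Pool.Agent.U73.LC
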