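import Pool.Agent.U73.LC.Fix

set_option autoImplicit false

/-!
# Semistable curves ordered by the conductor: exceptions to `|Δ| ≤ N ^ (1 + δ)` (helper73)
-/

namespace Pool.Agent.U73.LC

open Finset Filter Topology
open Pool.Agent.U73.LR Pool.Agent.U73.LS

theorem exc (hTN : S_TN) {κ δ : ℝ} (hκ : 1 < κ) (hκ2 : κ < 5 / 4) (hδ : 0 < δ) :
    ∃ η C : ℝ, 0 < η ∧ 0 < C ∧ ∀ X : ℝ, 1 ≤ X → cnt (X ^ (κ / 6)) (fun a b => Sm a b ∧ (Nz a b : ℝ) ≤ X ∧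
      (Nz a b : ℝ) ^ (1 + δ) < |(Dz a b : ℝ)|) ≤ C * X ^ (5 / 6 - η) := by
  obtain ⟨ρ, hρ⟩ : ∃ ρ : ℝ, ρ = (5 + 4 * κ) / 10 := ⟨_, rfl⟩
  have hρ0 : 0 < ρ := by rw [hρ]; linarith
  have hρ1 : ρ < 1 := by rw [hρ]; linarith
  obtain ⟨κ', hκ'⟩ : ∃ κ' : ℝ, κ' = κ / ρ := ⟨_, rfl⟩
  have hκρ : κ' * ρ = κ := by rw [hκ']; field_simp
  have hκ1' : 1 < κ' := by
    rw [hκ', lt_div_iff₀ hρ0]; linarith
  have hκ2' : κ' < 5 / 4 := by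
    rw [hκ', div_lt_iff₀ hρ0, hρ]; linarith
  obtain ⟨g, hg⟩ : ∃ g : ℝ, g = (5 / 6 - 2 * κ / 3) / 2 := ⟨_, rfl⟩
  have hg0 : 0 < g := by rw [hg]; linarith
  obtain ⟨C₁, hC₁, h1⟩ := hTN κ' g hκ1' hκ2' hg0
  obtain ⟨e, he⟩ : ∃ e : ℝ, e = min (1 / 12) g := ⟨_, rfl⟩
  have he0 : 0 < e := by rw [he]; exact lt_min (by norm_num) hg0
  have he1 : e ≤ 1 / 12 := by rw [he]; exact min_le_left _ _
  have he2 : e ≤ g := by rw [he]; exact min_le_right _ _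
  obtain ⟨C₂, hC₂, h2⟩ := hTN κ e hκ hκ2 he0
  obtain ⟨η, hη⟩ : ∃ η : ℝ, η = min (5 / 6 * (1 - ρ)) (min g (ρ * δ / 12)) := ⟨_, rfl⟩
  have hη0 : 0 < η := by
    rw [hη]
    refine lt_min (by nlinarith) (lt_min hg0 (by positivity))
  have hη1 : η ≤ 5 / 6 * (1 - ρ) := by rw [hη]; exact min_le_left _ _
  have hη2 : η ≤ g := by rw [hη]; exact (min_le_right _ _).trans (min_le_left _ _)
  have hη3 : η ≤ ρ * δ / 12 := by rw [hη]; exact (min_le_right _ _).trans (min_le_right _ _)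
  refine ⟨η, 2 * C₁ + 2 * C₂, hη0, by positivity, fun X hX => ?_⟩
  have hX0 : 0 < X := by linarith
  have hXρ : 1 ≤ X ^ ρ := Real.one_le_rpow hX hρ0.le
  have hXρ0 : 0 < X ^ ρ := by linarith
  have q1 := h1 (X ^ ρ) 1 hXρ le_rfl
  have e1 : (X ^ ρ) ^ (κ' / 6) = X ^ (κ / 6) := by
    rw [← Real.rpow_mul hX0.le]
    congr 1
    rw [← hκρ]; ring
  rw [e1, Real.one_rpow, mul_one] at q1
  have hK1 : 1 ≤ X ^ (ρ * δ) := Real.one_le_rpow hX (by positivity)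
  have q2 := h2 X (X ^ (ρ * δ)) hX hK1
  have hsplit : cnt (X ^ (κ / 6)) (fun a b => Sm a b ∧ (Nz a b : ℝ) ≤ X ∧
      (Nz a b : ℝ) ^ (1 + δ) < |(Dz a b : ℝ)|) ≤
      cnt (X ^ (κ / 6)) (fun a b => Sm a b ∧ (Nz a b : ℝ) ≤ X ^ ρ ∧ (1 : ℝ) ≤ rs a b) +
      cnt (X ^ (κ / 6)) (fun a b => Sm a b ∧ (Nz a b : ℝ) ≤ X ∧ X ^ (ρ * δ) ≤ rs a b) := by
    refine le_trans ?_ (cnt_or _ _ _)
    apply cnt_mono
    rintro a b ⟨k1, k2, k3⟩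
    obtain ⟨f1, f2, f3, f4⟩ := fact.1 a b k1
    rcases le_or_gt (Nz a b : ℝ) (X ^ ρ) with k4 | k4
    · left
      exact ⟨k1, k4, by exact_mod_cast f4⟩
    · right
      refine ⟨k1, k2, ?_⟩
      have hN0 : (0 : ℝ) < Nz a b := hXρ0.trans k4
      have e2 : |(Dz a b : ℝ)| = (rs a b : ℝ) * (Nz a b : ℝ) := by
        rw [← Int.cast_abs, Int.abs_eq_natAbs, f3]; push_cast; ring
      rw [e2, Real.rpow_add hN0, Real.rpow_one, mul_comm] at k3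
      have k5 : (Nz a b : ℝ) ^ δ < rs a b := lt_of_mul_lt_mul_right k3 hN0.le
      calc X ^ (ρ * δ) = (X ^ ρ) ^ δ := Real.rpow_mul hX0.le _ _
        _ ≤ (Nz a b : ℝ) ^ δ := by gcongr
        _ ≤ rs a b := k5.le
  have b1 : (X ^ ρ) ^ (5 / 6 : ℝ) ≤ X ^ (5 / 6 - η) := by
    rw [← Real.rpow_mul hX0.le]
    exact Real.rpow_le_rpow_of_exponent_le hX (by linarith)
  have b2 : (X ^ ρ) ^ (2 * κ' / 3 + g) ≤ X ^ (5 / 6 - η) := by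
    rw [← Real.rpow_mul hX0.le]
    refine Real.rpow_le_rpow_of_exponent_le hX ?_
    have e3 : ρ * (2 * κ' / 3 + g) = 2 * (κ' * ρ) / 3 + ρ * g := by ring
    rw [e3, hκρ]
    have : ρ * g ≤ g := by nlinarith
    linarith
  have b3 : X ^ (5 / 6 : ℝ) * (X ^ (ρ * δ)) ^ (-(1 / 6) + e) ≤ X ^ (5 / 6 - η) := by
    rw [← Real.rpow_mul hX0.le, ← Real.rpow_add hX0]
    refine Real.rpow_le_rpow_of_exponent_le hX ?_
    have hpd : 0 < ρ * δ := by positivity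
    nlinarith
  have b4 : X ^ (2 * κ / 3 + e) ≤ X ^ (5 / 6 - η) := Real.rpow_le_rpow_of_exponent_le hX (by linarith)
  calc _ ≤ _ := hsplit
    _ ≤ C₁ * ((X ^ ρ) ^ (5 / 6 : ℝ) + (X ^ ρ) ^ (2 * κ' / 3 + g)) +
        C₂ * (X ^ (5 / 6 : ℝ) * (X ^ (ρ * δ)) ^ (-(1 / 6) + e) + X ^ (2 * κ / 3 + e)) := add_le_add q1 q2
    _ ≤ C₁ * (X ^ (5 / 6 - η) + X ^ (5 / 6 - η)) + C₂ * (X ^ (5 / 6 - η) + X ^ (5 / 6 - η)) := by gcongr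
    _ = _ := by ring

end Pool.Agent.U73.LC
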