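import Pool.Agent.U73.LC.Fix

set_option autoImplicit false

/-!
# The uniform tail from PER, LPS, GS (helper73)
-/

namespace Pool.Agent.U73.LC

open Finset Filter Topology
open Pool.Agent.U73.LR Pool.Agent.U73.LS

theorem cnt_ex {ι : Type*} (Z : ℝ) (P : ι → ℤ → ℤ → Prop) (S : Finset ι) :
    cnt Z (fun a b => ∃ n ∈ S, P n a b) ≤ ∑ n ∈ S, cnt Z (P n) := by
  classical
  induction S using Finset.induction_on with
  | empty =>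
    rw [Finset.sum_empty, cnt_false Z]
    rintro a b ⟨p, hp, _⟩
    simp at hp
  | insert p T hpT ih =>
    rw [Finset.sum_insert hpT]
    refine le_trans ?_ (add_le_add_right ih _)
    refine le_trans ?_ (cnt_or Z _ _)
    apply cnt_mono
    rintro a b ⟨q, hq, h⟩
    rw [Finset.mem_insert] at hq
    rcases hq with rfl | hq
    · left; exact h
    · right; exact ⟨q, hq, h⟩

/-- the least divisor `≥ K` is at most `K²` or prime -/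
theorem least_div {r : ℕ} (hr : 0 < r) {K : ℝ} (hK : 1 ≤ K) (h : K ≤ r) :
    ∃ n : ℕ, n ∣ r ∧ K ≤ n ∧ 1 ≤ n ∧ ((n : ℝ) ≤ K ^ 2 ∨ n.Prime) := by
  classical
  obtain ⟨D, hD⟩ : ∃ D : Finset ℕ, D = r.divisors.filter (fun n : ℕ => K ≤ (n : ℝ)) := ⟨_, rfl⟩
  have hne : D.Nonempty := ⟨r, by rw [hD, mem_filter, Nat.mem_divisors]; exact ⟨⟨dvd_rfl, hr.ne'⟩, h⟩⟩
  obtain ⟨n, hn⟩ : ∃ n : ℕ, n = D.min' hne := ⟨_, rfl⟩
  have hnD : n ∈ D := by rw [hn]; exact Finset.min'_mem _ _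
  have hnD' := hnD
  rw [hD, mem_filter, Nat.mem_divisors] at hnD'
  obtain ⟨⟨h1, -⟩, h2⟩ := hnD'
  have hn1 : 1 ≤ n := by
    have : (1 : ℝ) ≤ n := hK.trans h2
    exact_mod_cast this
  refine ⟨n, h1, h2, hn1, ?_⟩
  by_cases hp : n.Prime
  · right; exact hp
  left
  rcases hn1.eq_or_lt with h3 | h3
  · rw [← h3]
    have : (1 : ℝ) ≤ K ^ 2 := one_le_pow₀ hK
    simpa using this
  · obtain ⟨q, hq⟩ : ∃ q : ℕ, q = n.minFac := ⟨_, rfl⟩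
    have hqn : q ∣ n := by rw [hq]; exact Nat.minFac_dvd n
    have hqp : q.Prime := by rw [hq]; exact Nat.minFac_prime (by omega)
    have hle : q ≤ n / q := by rw [hq]; exact Nat.minFac_le_div (by omega) hp
    have hmul : q * (n / q) = n := Nat.mul_div_cancel' hqn
    have hm : ¬ K ≤ ((n / q : ℕ) : ℝ) := by
      intro h4
      have h5 : n / q ∈ D := by
        rw [hD, mem_filter, Nat.mem_divisors]
        exact ⟨⟨(Dvd.intro_left q hmul).trans h1, hr.ne'⟩, h4⟩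
      have h6 : n ≤ n / q := by rw [hn]; exact Finset.min'_le _ _ (by rw [← hn]; exact h5)
      have h7 : n / q < n := Nat.div_lt_self (by omega) hqp.one_lt
      omega
    push Not at hm
    have h8 : (q : ℝ) ≤ ((n / q : ℕ) : ℝ) := by exact_mod_cast hle
    have h9 : (n : ℝ) = q * ((n / q : ℕ) : ℝ) := by exact_mod_cast hmul.symm
    rw [h9]
    have h10 : (0 : ℝ) ≤ q := Nat.cast_nonneg _
    nlinarith

theorem ty_aux (hP : S_PER) (hL : S_LPS) (hG : S_GS) (ε : ℝ) (hε : 0 < ε) : ∃ e C : ℝ, 0 < e ∧ e ≤ ε ∧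
    e ≤ 1 / 2 ∧ 0 < C ∧ ∀ Z T K : ℝ, 1 ≤ Z → 1 ≤ T → 1 ≤ K → K ≤ Z →
    cnt Z (fun a b => Sm a b ∧ |(a : ℝ) ^ 3 - (b : ℝ) ^ 2| ≤ T ^ 6 ∧ K ≤ rs a b) ≤
      C * (T ^ 5 * K ^ (-1 + e) + Z ^ (4 + ε)) := by
  classical
  obtain ⟨e, he⟩ : ∃ e : ℝ, e = min (ε / 2) (1 / 2) := ⟨_, rfl⟩
  have he0 : 0 < e := by rw [he]; exact lt_min (by linarith) (by norm_num)
  have he1 : e ≤ ε / 2 := by rw [he]; exact min_le_left _ _
  have he2 : e ≤ 1 / 2 := by rw [he]; exact min_le_right _ _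
  obtain ⟨C₁, hC₁, h1⟩ := hP
  obtain ⟨C₂, hC₂, h2⟩ := hL e he0
  obtain ⟨C₃, hC₃, h3, h4⟩ := hG e he0
  refine ⟨e, C₁ * C₃ + 3 * C₁ * C₃ + 3 * C₁ + C₂ + C₁ * C₃, he0, by linarith, he2, by positivity, ?_⟩
  intro Z T K hZ hT hK hKZ
  have hZ0 : 0 < Z := by linarith
  have hK0 : 0 < K := by linarith
  obtain ⟨S₁, hS₁⟩ : ∃ S : Finset ℕ, S = (Icc 1 ⌊K ^ 2⌋₊).filter (fun n : ℕ => K ≤ (n : ℝ)) := ⟨_, rfl⟩
  obtain ⟨S₂, hS₂⟩ : ∃ S : Finset ℕ, S = (Icc 1 ⌊Z ^ 2⌋₊).filter (fun n : ℕ => K ≤ (n : ℝ) ∧ n.Prime) :=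
    ⟨_, rfl⟩
  have hm1 : ∀ n ∈ S₁, 1 ≤ n ∧ (n : ℝ) ≤ K ^ 2 ∧ K ≤ (n : ℝ) := by
    intro n hn
    rw [hS₁, mem_filter, mem_Icc] at hn
    exact ⟨hn.1.1, (Nat.le_floor_iff (by positivity)).1 hn.1.2, hn.2⟩
  have hm2 : ∀ n ∈ S₂, 1 ≤ n ∧ (n : ℝ) ≤ Z ^ 2 ∧ K ≤ (n : ℝ) ∧ n.Prime := by
    intro n hn
    rw [hS₂, mem_filter, mem_Icc] at hn
    exact ⟨hn.1.1, (Nat.le_floor_iff (by positivity)).1 hn.1.2, hn.2.1, hn.2.2⟩
  have hcard2 : (S₂.card : ℝ) ≤ Z ^ 2 := by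
    have h5 : S₂.card ≤ ⌊Z ^ 2⌋₊ := by
      rw [hS₂]
      refine (card_filter_le _ _).trans ?_
      rw [Nat.card_Icc]; omega
    calc (S₂.card : ℝ) ≤ (⌊Z ^ 2⌋₊ : ℝ) := by exact_mod_cast h5
      _ ≤ Z ^ 2 := Nat.floor_le (by positivity)
  have hcard1 : (S₁.card : ℝ) ≤ K ^ 2 := by
    have h5 : S₁.card ≤ ⌊K ^ 2⌋₊ := by
      rw [hS₁]
      refine (card_filter_le _ _).trans ?_
      rw [Nat.card_Icc]; omega
    calc (S₁.card : ℝ) ≤ (⌊K ^ 2⌋₊ : ℝ) := by exact_mod_cast h5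
      _ ≤ K ^ 2 := Nat.floor_le (by positivity)
  -- the covering
  have hcov : cnt Z (fun a b => Sm a b ∧ |(a : ℝ) ^ 3 - (b : ℝ) ^ 2| ≤ T ^ 6 ∧ K ≤ rs a b) ≤
      ∑ n ∈ S₁, cnt Z (fun a b => Sm a b ∧ |(a : ℝ) ^ 3 - (b : ℝ) ^ 2| ≤ T ^ 6 ∧ n ∣ rs a b) +
      (∑ n ∈ S₂, cnt Z (fun a b => Sm a b ∧ |(a : ℝ) ^ 3 - (b : ℝ) ^ 2| ≤ T ^ 6 ∧ n ∣ rs a b) +
      cnt Z (fun a b => a ≠ 0 ∧ a ^ 3 ≠ b ^ 2 ∧ ∃ p : ℕ, Z ^ 2 ≤ p ∧ (p : ℤ) ^ 2 ∣ a ^ 3 - b ^ 2)) := by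
    refine le_trans ?_ (add_le_add (cnt_ex Z _ _) (add_le_add_left (cnt_ex Z _ _) _))
    refine le_trans ?_ (add_le_add_right (cnt_or Z _ _) _)
    refine le_trans ?_ (cnt_or Z _ _)
    apply cnt_mono
    rintro a b ⟨k1, k2, k3⟩
    have hr := (fact.1 a b k1).2.2.2
    obtain ⟨n, n1, n2, n3, n4⟩ := least_div hr hK k3
    rcases n4 with n4 | n4
    · left
      refine ⟨n, ?_, k1, k2, n1⟩
      rw [hS₁, mem_filter, mem_Icc]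
      exact ⟨⟨n3, Nat.le_floor n4⟩, n2⟩
    · right
      rcases le_or_gt (n : ℝ) (Z ^ 2) with n5 | n5
      · left
        refine ⟨n, ?_, k1, k2, n1⟩
        rw [hS₂, mem_filter, mem_Icc]
        exact ⟨⟨n3, Nat.le_floor n5⟩, n2, n4⟩
      · right
        have q1 := (fact.2 a b k1 n n4 1).1 (by rw [pow_one]; exact n1)
        have q2 : (n : ℤ) ^ 2 ∣ a ^ 3 - b ^ 2 := by
          rcases q1.2 with q3 | q3
          · omega
          · exact (pow_dvd_pow _ (by omega)).trans q3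
        refine ⟨?_, ((sm_iff a b).1 k1).1, n, n5.le, q2⟩
        intro h0
        have q4 := ((sm_iff a b).1 k1).2 3 Nat.prime_three
        unfold Sp at q4
        norm_num at q4
        rw [h0] at q4
        rcases q4 with ⟨q5, -⟩ | ⟨-, q5, -⟩
        · exact q5 (dvd_zero _)
        · exact q5 (dvd_zero _)
  -- the sums
  have hsum : ∀ S : Finset ℕ, (∀ n ∈ S, 1 ≤ n ∧ K ≤ (n : ℝ)) →
      ∑ n ∈ S, cnt Z (fun a b => Sm a b ∧ |(a : ℝ) ^ 3 - (b : ℝ) ^ 2| ≤ T ^ 6 ∧ n ∣ rs a b) ≤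
      C₁ * (T ^ 5 * (C₃ * K ^ (-1 + e)) + (∑ n ∈ S, (2 : ℝ) ^ n.primeFactors.card) * Z ^ 2) := by
    intro S hS
    calc _ ≤ ∑ n ∈ S, C₁ * 2 ^ n.primeFactors.card *
          (T ^ 5 / ((n : ℝ) * ∏ p ∈ n.primeFactors, (p : ℝ)) + Z ^ 2) :=
          Finset.sum_le_sum fun n hn => h1 Z T n hZ hT (hS n hn).1
      _ = C₁ * (T ^ 5 * (∑ n ∈ S, (2 : ℝ) ^ n.primeFactors.card /
            ((n : ℝ) * ∏ p ∈ n.primeFactors, (p : ℝ))) +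
            (∑ n ∈ S, (2 : ℝ) ^ n.primeFactors.card) * Z ^ 2) := by
          rw [mul_sum, sum_mul, ← sum_add_distrib, mul_sum]
          refine Finset.sum_congr rfl fun n _ => ?_
          ring
      _ ≤ _ := by
          gcongr
          exact h3 K S hK fun n hn => (hS n hn).2
  have hw1 : (∑ n ∈ S₁, (2 : ℝ) ^ n.primeFactors.card) * Z ^ 2 ≤ C₃ * Z ^ (4 + ε) := by
    have h5 : ∑ n ∈ S₁, (2 : ℝ) ^ n.primeFactors.card ≤ K ^ 2 * (C₃ * (K ^ 2) ^ e) := by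
      calc ∑ n ∈ S₁, (2 : ℝ) ^ n.primeFactors.card ≤ ∑ n ∈ S₁, C₃ * (K ^ 2) ^ e := by
            refine Finset.sum_le_sum fun n hn => ?_
            obtain ⟨k1, k2, k3⟩ := hm1 n hn
            refine (h4 n k1).trans ?_
            gcongr
        _ = S₁.card * (C₃ * (K ^ 2) ^ e) := by rw [sum_const, nsmul_eq_mul]
        _ ≤ K ^ 2 * (C₃ * (K ^ 2) ^ e) := by gcongr
    calc (∑ n ∈ S₁, (2 : ℝ) ^ n.primeFactors.card) * Z ^ 2 ≤ (K ^ 2 * (C₃ * (K ^ 2) ^ e)) * Z ^ 2 := by gcongr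
      _ ≤ (Z ^ 2 * (C₃ * (Z ^ 2) ^ e)) * Z ^ 2 := by gcongr
      _ = C₃ * Z ^ (4 + 2 * e) := by
          have q1 : (Z ^ 2) ^ e = Z ^ (2 * e) := by
            rw [← Real.rpow_natCast, ← Real.rpow_mul hZ0.le]; norm_num
          have q2 : Z ^ (4 + 2 * e) = Z ^ 2 * Z ^ 2 * Z ^ (2 * e) := by
            rw [Real.rpow_add hZ0]
            norm_num
            left
            ring
          rw [q1, q2]; ring
      _ ≤ C₃ * Z ^ (4 + ε) := by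
          gcongr
          linarith
  have hZ4 : Z ^ 4 ≤ Z ^ (4 + ε) := by
    rw [← Real.rpow_natCast]
    exact Real.rpow_le_rpow_of_exponent_le hZ (by push_cast; linarith)
  have hw2 : (∑ n ∈ S₂, (2 : ℝ) ^ n.primeFactors.card) * Z ^ 2 ≤ 2 * Z ^ (4 + ε) := by
    have h5 : ∑ n ∈ S₂, (2 : ℝ) ^ n.primeFactors.card = 2 * S₂.card := by
      rw [Finset.sum_congr rfl (g := fun _ => (2 : ℝ)) fun n hn => by
        rw [(hm2 n hn).2.2.2.primeFactors]; simp]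
      rw [sum_const, nsmul_eq_mul, mul_comm]
    rw [h5]
    calc 2 * (S₂.card : ℝ) * Z ^ 2 ≤ 2 * Z ^ 2 * Z ^ 2 := by gcongr
      _ = 2 * Z ^ 4 := by ring
      _ ≤ _ := by gcongr
  have hw3 := h2 Z (Z ^ 2) hZ (one_le_pow₀ hZ)
  have hw3' : C₂ * Z ^ (8 + e) / (Z ^ 2) ^ 2 ≤ C₂ * Z ^ (4 + ε) := by
    rw [mul_div_assoc]
    gcongr
    rw [← pow_mul, ← Real.rpow_natCast, ← Real.rpow_sub hZ0]
    exact Real.rpow_le_rpow_of_exponent_le hZ (by push_cast; linarith)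
  have s1 := hsum S₁ (fun n hn => ⟨(hm1 n hn).1, (hm1 n hn).2.2⟩)
  have s2 := hsum S₂ (fun n hn => ⟨(hm2 n hn).1, (hm2 n hn).2.2.1⟩)
  have hKe : 0 < K ^ (-1 + e) := by positivity
  have hZe : 0 < Z ^ (4 + ε) := by positivity
  obtain ⟨A, hA⟩ : ∃ A : ℝ, A = T ^ 5 * K ^ (-1 + e) := ⟨_, rfl⟩
  obtain ⟨B, hB⟩ : ∃ B : ℝ, B = Z ^ (4 + ε) := ⟨_, rfl⟩
  have hA0 : 0 ≤ A := by rw [hA]; positivity
  rw [← hB] at hw1 hw2 hw3' hZe
  rw [← hA, ← hB]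
  have s1' : ∑ n ∈ S₁, cnt Z (fun a b => Sm a b ∧ |(a : ℝ) ^ 3 - (b : ℝ) ^ 2| ≤ T ^ 6 ∧ n ∣ rs a b) ≤
      C₁ * (C₃ * A + C₃ * B) := by
    refine s1.trans ?_
    have : T ^ 5 * (C₃ * K ^ (-1 + e)) = C₃ * A := by rw [hA]; ring
    rw [this]
    gcongr
  have s2' : ∑ n ∈ S₂, cnt Z (fun a b => Sm a b ∧ |(a : ℝ) ^ 3 - (b : ℝ) ^ 2| ≤ T ^ 6 ∧ n ∣ rs a b) ≤
      C₁ * (C₃ * A + 2 * B) := by
    refine s2.trans ?_
    have : T ^ 5 * (C₃ * K ^ (-1 + e)) = C₃ * A := by rw [hA]; ring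
    rw [this]
    gcongr
  have s3' := hw3.trans hw3'
  have p1 : 0 ≤ C₁ * C₃ * A := by positivity
  have p2 : 0 ≤ C₁ * C₃ * B := by positivity
  have p3 : 0 ≤ C₁ * A := by positivity
  have p4 : 0 ≤ C₁ * B := by positivity
  have p5 : 0 ≤ C₂ * A := by positivity
  calc _ ≤ _ := hcov
    _ ≤ C₁ * (C₃ * A + C₃ * B) + (C₁ * (C₃ * A + 2 * B) + C₂ * B) := by
        gcongr
    _ ≤ (C₁ * C₃ + 3 * C₁ * C₃ + 3 * C₁ + C₂ + C₁ * C₃) * (A + B) := by nlinarith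

theorem ty (hP : S_PER) (hL : S_LPS) (hG : S_GS) : S_TY := by
  intro ε hε
  obtain ⟨e, C, he0, he1, he2, hC, h⟩ := ty_aux hP hL hG ε hε
  refine ⟨33 * C, by positivity, fun Z T K hZ hT hK => ?_⟩
  have hZ0 : 0 < Z := by linarith
  have hK0 : 0 < K := by linarith
  have hT2 : 1 ≤ min T (2 * Z) := le_min hT (by linarith)
  have hK2 : 1 ≤ min K Z := le_min hK hZ
  have h1 := h Z (min T (2 * Z)) (min K Z) hZ hT2 hK2 (min_le_right _ _)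
  have h2 : cnt Z (fun a b => Sm a b ∧ |(a : ℝ) ^ 3 - (b : ℝ) ^ 2| ≤ T ^ 6 ∧ K ≤ rs a b) ≤
      cnt Z (fun a b => Sm a b ∧ |(a : ℝ) ^ 3 - (b : ℝ) ^ 2| ≤ (min T (2 * Z)) ^ 6 ∧ min K Z ≤ rs a b) := by
    apply cnt_le
    rintro a b k1 k2 ⟨k3, k4, k5⟩
    refine ⟨k1, k2, k3, ?_, (min_le_left _ _).trans k5⟩
    rcases le_total T (2 * Z) with h3 | h3
    · rw [min_eq_left h3]; exact k4
    · rw [min_eq_right h3]
      have e1 : |(a : ℝ) ^ 3| ≤ Z ^ 6 := by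
        rw [abs_pow]
        calc |(a : ℝ)| ^ 3 ≤ (Z ^ 2) ^ 3 := by gcongr
          _ = Z ^ 6 := by ring
      have e2 : |(b : ℝ) ^ 2| ≤ Z ^ 6 := by
        rw [abs_pow]
        calc |(b : ℝ)| ^ 2 ≤ (Z ^ 3) ^ 2 := by gcongr
          _ = Z ^ 6 := by ring
      calc |(a : ℝ) ^ 3 - (b : ℝ) ^ 2| ≤ Z ^ 6 + Z ^ 6 := (abs_sub _ _).trans (add_le_add e1 e2)
        _ ≤ 64 * Z ^ 6 := by
            have : 0 ≤ Z ^ 6 := by positivity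
            linarith
        _ = (2 * Z) ^ 6 := by ring
  refine h2.trans (h1.trans ?_)
  have hB : 0 < Z ^ (4 + ε) := by positivity
  rcases le_total K Z with h3 | h3
  · rw [min_eq_left h3]
    have h4 : (min T (2 * Z)) ^ 5 * K ^ (-1 + e) ≤ T ^ 5 * K ^ (-1 + ε) := by
      have : K ^ (-1 + e) ≤ K ^ (-1 + ε) := Real.rpow_le_rpow_of_exponent_le hK (by linarith)
      gcongr
      exact min_le_left _ _
    have h5 : 0 ≤ T ^ 5 * K ^ (-1 + ε) := by positivity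
    calc C * ((min T (2 * Z)) ^ 5 * K ^ (-1 + e) + Z ^ (4 + ε)) ≤
        C * (T ^ 5 * K ^ (-1 + ε) + Z ^ (4 + ε)) := by gcongr
      _ ≤ 33 * C * (T ^ 5 * K ^ (-1 + ε) + Z ^ (4 + ε)) := by
          have : 0 ≤ C * (T ^ 5 * K ^ (-1 + ε) + Z ^ (4 + ε)) := by positivity
          linarith
  · rw [min_eq_right h3]
    have h4 : (min T (2 * Z)) ^ 5 * Z ^ (-1 + e) ≤ 32 * Z ^ (4 + ε) := by
      calc (min T (2 * Z)) ^ 5 * Z ^ (-1 + e) ≤ (2 * Z) ^ 5 * Z ^ (-1 + e) := by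
            gcongr
            exact min_le_right _ _
        _ = 32 * Z ^ (4 + e) := by
            have : Z ^ (4 + e) = Z ^ 5 * Z ^ (-1 + e) := by
              rw [← Real.rpow_natCast, ← Real.rpow_add hZ0]; congr 1; push_cast; ring
            rw [this]; ring
        _ ≤ 32 * Z ^ (4 + ε) := by
            gcongr
    have h5 : 0 ≤ T ^ 5 * K ^ (-1 + ε) := by positivity
    calc C * ((min T (2 * Z)) ^ 5 * Z ^ (-1 + e) + Z ^ (4 + ε)) ≤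
        C * (32 * Z ^ (4 + ε) + Z ^ (4 + ε)) := by gcongr
      _ = 33 * C * Z ^ (4 + ε) := by ring
      _ ≤ 33 * C * (T ^ 5 * K ^ (-1 + ε) + Z ^ (4 + ε)) := by
          gcongr
          linarith

end Pool.Agent.U73.LC
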