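import Pool.Agent.U73.LC.Main
import Pool.Agent.U73.LC.Exc
import Pool.Agent.U103.LC.FREG
import Pool.Agent.U109.LC.PER
import Pool.Agent.U296.LC.LPS
import Pool.Agent.U312.LC.RIE
import Pool.Agent.U37.LC.GS
import Pool.Agent.U73.LC.Ty
import Pool.Agent.U588.LC.TN
import Pool.Agent.U612.LC.CUSP
import Pool.Agent.U653.LC.AREA
import Pool.Agent.U689.LC.REG
import Pool.Agent.U774.LC.EUP
import Pool.Agent.U891.LC.SLICE

set_option autoImplicit false

/-!
# Semistable curves ordered by the conductor: all parts together (helper73)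

SLICE helper891, RIE helper312, REG helper689, CUSP helper612, PER helper109, LPS helper296, GS helper37, TN helper588, AREA helper653, EUP helper774, FREG helper103.
-/

namespace Pool.Agent.U73.LC

open Pool.Agent.U73.LS

theorem tn : S_TN :=
  Pool.Agent.U588.LC.t_TN (ty Pool.Agent.U109.LC.t_PER Pool.Agent.U296.LC.t_LPS
    Pool.Agent.U37.LC.t_GS)

theorem fam : ∃ F : Fam, F.M = Sm ∧ F.r = rs := by
  obtain ⟨F, h1, h2, -, -⟩ := exists_fam Pool.Agent.U978.LS.t_SMALL Pool.Agent.U789.LS.t_BIG fact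
    Pool.Agent.U358.LS.DEN.t_DEN
  exact ⟨F, h1, h2⟩

theorem law_all : S_LAW :=
  law (Pool.Agent.U689.LC.t_REG Pool.Agent.U891.LC.t_SLICE Pool.Agent.U312.LC.t_RIE)
    Pool.Agent.U103.LC.t_FREG Pool.Agent.U612.LC.t_CUSP tn Pool.Agent.U653.LC.t_AREA
    Pool.Agent.U774.LC.t_EUP fam

end Pool.Agent.U73.LC
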