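import Pool.Agent.U73.LC.Stm
import Pool.Agent.U73.LS.All

set_option autoImplicit false

/-!
# Semistable curves ordered by the conductor: fixed ratio (helper73)
-/

namespace Pool.Agent.U73.LC

open Finset Filter Topology
open Pool.Agent.U73.LR Pool.Agent.U73.LS

theorem cnt_le {X Y : ℝ} {P Q : ℤ → ℤ → Prop}
    (h : ∀ a b : ℤ, |(a : ℝ)| ≤ X ^ 2 → |(b : ℝ)| ≤ X ^ 3 → P a b →
      |(a : ℝ)| ≤ Y ^ 2 ∧ |(b : ℝ)| ≤ Y ^ 3 ∧ Q a b) : cnt X P ≤ cnt Y Q := by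
  classical
  rw [cnt_def X P, cnt_def Y Q]
  refine Nat.cast_le.2 (Finset.card_le_card ?_)
  intro q hq
  rw [Finset.mem_filter, mem_box] at hq ⊢
  obtain ⟨⟨h1, h2⟩, h3⟩ := hq
  obtain ⟨k1, k2, k3⟩ := h _ _ h1 h2 h3
  exact ⟨⟨k1, k2⟩, k3⟩

/-- limits by approximation -/
theorem lim_approx {f : ℝ → ℝ} {g : ℕ → ℝ → ℝ} {L e : ℕ → ℝ} {l : ℝ}
    (hg : ∀ M, Tendsto (g M) atTop (𝓝 (L M))) (hL : Tendsto L atTop (𝓝 l))
    (he : Tendsto e atTop (𝓝 0))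
    (h : ∀ᶠ M in atTop, ∀ᶠ X : ℝ in atTop, |f X - g M X| ≤ e M) : Tendsto f atTop (𝓝 l) := by
  rw [Metric.tendsto_nhds]
  intro ε hε
  have h2 : ∀ᶠ M in atTop, e M < ε / 3 := he.eventually_lt_const (by linarith)
  have h3 := (Metric.tendsto_nhds.1 hL) (ε / 3) (by linarith)
  obtain ⟨M, g1, g2, g3⟩ := (h.and (h2.and h3)).exists
  have h4 := (Metric.tendsto_nhds.1 (hg M)) (ε / 3) (by linarith)
  filter_upwards [g1, h4] with X hX hX'
  rw [Real.dist_eq] at g3 hX' ⊢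
  have a1 := abs_sub_le (f X) (g M X) (L M)
  have a2 := abs_sub_le (f X) (L M) l
  linarith

/-- the conductor from the discriminant -/
theorem nz_iff {a b : ℤ} (h : Sm a b) {n : ℕ} (hn : rs a b = n) (X : ℝ) :
    (Nz a b : ℝ) ≤ X ↔ |(a : ℝ) ^ 3 - (b : ℝ) ^ 2| ≤ 1728 * n * X := by
  obtain ⟨k1, k2, k3, k4⟩ := fact.1 a b h
  have hn0 : (0 : ℝ) < n := by rw [← hn]; exact_mod_cast k4
  have e1 : (a : ℝ) ^ 3 - (b : ℝ) ^ 2 = 1728 * (Dz a b : ℝ) := by exact_mod_cast k1.symm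
  have e2 : |(Dz a b : ℝ)| = (n : ℝ) * (Nz a b : ℝ) := by
    rw [← Int.cast_abs, Int.abs_eq_natAbs, k3, hn]; push_cast; ring
  rw [e1, abs_mul, abs_of_pos (by norm_num : (0 : ℝ) < 1728), e2]
  constructor
  · intro h
    have : (n : ℝ) * (Nz a b : ℝ) ≤ n * X := by gcongr
    nlinarith
  · intro h
    have h2 : (n : ℝ) * (Nz a b : ℝ) ≤ n * X := by linarith
    exact le_of_mul_le_mul_left h2 hn0

/-- the density of the pairs with `r = n` -/
theorem pm_lim {μ : ℕ → ℝ}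
    (hT : Tendsto (fun X : ℝ => cnt X Sm / X ^ 5) atTop (𝓝 (1 / (144 * Real.pi ^ 2))))
    (k4 : ∀ ε : ℝ, 0 < ε → ∃ X₀ : ℝ, ∀ X : ℝ, X₀ ≤ X → 0 < cnt X Sm ∧ ∀ A : Set ℕ,
      |cnt X (fun a b => Sm a b ∧ rs a b ∈ A) / cnt X Sm - ∑' m, A.indicator μ m| ≤ ε) (n : ℕ) :
    Tendsto (fun X : ℝ => cnt X (fun a b => Sm a b ∧ rs a b = n) / X ^ 5) atTop
      (𝓝 (4 * (μ n / (576 * Real.pi ^ 2)))) := by
  have l1 : Tendsto (fun X : ℝ => cnt X (fun a b => Sm a b ∧ rs a b ∈ ({n} : Set ℕ)) / cnt X Sm)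
      atTop (𝓝 (∑' k, ({n} : Set ℕ).indicator μ k)) := by
    rw [Metric.tendsto_nhds]
    intro ε hε
    obtain ⟨X₀, hX₀⟩ := k4 (ε / 2) (by linarith)
    filter_upwards [eventually_ge_atTop X₀] with X hX
    rw [Real.dist_eq]
    have := (hX₀ X hX).2 {n}
    linarith
  have l2 : ∑' k, ({n} : Set ℕ).indicator μ k = μ n := by
    rw [tsum_eq_single n]
    · exact Set.indicator_of_mem rfl _
    · intro k hk
      exact Set.indicator_of_notMem (by simpa using hk) _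
  rw [l2] at l1
  have l3 := hT.mul l1
  have e : 1 / (144 * Real.pi ^ 2) * μ n = 4 * (μ n / (576 * Real.pi ^ 2)) := by
    have := Real.pi_pos
    field_simp
    ring
  rw [e] at l3
  refine l3.congr' ?_
  obtain ⟨X₀, hX₀⟩ := k4 1 one_pos
  filter_upwards [eventually_ge_atTop X₀, eventually_gt_atTop (0 : ℝ)] with X hX hX0
  have l4 := (hX₀ X hX).1
  have l5 : cnt X (fun a b => Sm a b ∧ rs a b = n) = cnt X (fun a b => Sm a b ∧ rs a b ∈ ({n} : Set ℕ)) :=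
    cnt_congr X fun a b => by simp
  rw [l5]
  field_simp

/-- the region, truncated -/
theorem reg_lim (hR : S_REG) (hF : S_FREG) (F : Fam) (hFM : F.M = Sm) (hFr : F.r = rs) {D : ℝ} {n : ℕ}
    (hn : 1 ≤ n) (hD : Tendsto (fun X : ℝ => cnt X (fun a b => Sm a b ∧ rs a b = n) / X ^ 5) atTop (𝓝 (4 * D)))
    (s : Bool) (M : ℝ) (hM : 1 ≤ M) :
    Tendsto (fun T : ℝ => cnt ((M + 1) * T) (fun a b => (|(a : ℝ)| ≤ M * T ^ 2 ∧ Sg s a b ∧
      |(a : ℝ) ^ 3 - (b : ℝ) ^ 2| ≤ T ^ 6) ∧ Sm a b ∧ rs a b = n) / T ^ 5) atTop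
      (𝓝 (D * ∫ u in (-M)..M, Ls s u)) := by
  have hM0 : 0 < M + 1 := by linarith
  have h := hF F (fun X a b => |(a : ℝ)| ≤ M * (X / (M + 1)) ^ 2 ∧ Sg s a b ∧
      |(a : ℝ) ^ 3 - (b : ℝ) ^ 2| ≤ (X / (M + 1)) ^ 6) ((∫ u in (-M)..M, Ls s u) / (M + 1) ^ 5) (by
    intro m P hm hP
    have h1 := (hR s M hM m P hm hP).comp (tendsto_id.atTop_div_const hM0)
    have h2 := h1.div_const ((M + 1) ^ 5)
    have e : rc m P * (∫ u in (-M)..M, Ls s u) / (M + 1) ^ 5 =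
        (∫ u in (-M)..M, Ls s u) / (M + 1) ^ 5 * rc m P := by ring
    rw [e] at h2
    refine h2.congr fun X => ?_
    simp only [Function.comp, id]
    have e1 : (M + 1) * (X / (M + 1)) = X := by field_simp
    rw [e1, div_div]
    congr 1
    · apply cnt_congr
      intro a b
      tauto
    · rw [div_pow]; field_simp) n D hn (by
    refine hD.congr fun X => ?_
    congr 1
    apply cnt_congr
    intro a b
    unfold Fam.PM
    rw [hFM, hFr])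
  have h3 : Tendsto (fun T : ℝ => (M + 1) * T) atTop atTop := tendsto_id.const_mul_atTop hM0
  have h4 := (h.comp h3).mul_const ((M + 1) ^ 5)
  have e : (∫ u in (-M)..M, Ls s u) / (M + 1) ^ 5 * D * (M + 1) ^ 5 = D * ∫ u in (-M)..M, Ls s u := by
    field_simp
  rw [e] at h4
  refine h4.congr fun T => ?_
  simp only [Function.comp]
  have e1 : (M + 1) * T / (M + 1) = T := by field_simp
  rw [e1, mul_pow, mul_comm ((M + 1) ^ 5) (T ^ 5), div_mul_eq_mul_div, mul_div_mul_right _ _ (by positivity)]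
  congr 1
  apply cnt_congr
  intro a b
  unfold Fam.PM
  rw [hFM, hFr]

end Pool.Agent.U73.LC
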