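import Pool.Agent.U73.LC.Fix

set_option autoImplicit false

/-!
# Semistable curves ordered by the conductor: fixed ratio, part 2 (helper73)
-/

namespace Pool.Agent.U73.LC

open Finset Filter Topology
open Pool.Agent.U73.LR Pool.Agent.U73.LS

/-- the number of the semistable curves with `N ≤ X`, `|c₄|³, c₆² ≤ X^κ`, given sign and ratio in `A` -/
noncomputable def nc (κ X : ℝ) (s : Bool) (A : Set ℕ) : ℝ :=
  cnt (X ^ (κ / 6)) (fun a b => Sg s a b ∧ Sm a b ∧ (Nz a b : ℝ) ≤ X ∧ rs a b ∈ A)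

theorem r1728 : (1728 : ℝ) ^ (5 / 6 : ℝ) = 288 * √3 := by
  have e1 : (1728 : ℝ) = (12 : ℝ) ^ (3 : ℝ) := by norm_num
  have e2 : (288 : ℝ) * √3 = (12 : ℝ) ^ (2 : ℝ) * √12 := by
    rw [show (12 : ℝ) = 2 ^ 2 * 3 by norm_num, Real.sqrt_mul (by norm_num), Real.sqrt_sq (by norm_num)]
    norm_num
    ring
  rw [e2, e1, ← Real.rpow_mul (by norm_num), Real.sqrt_eq_rpow, ← Real.rpow_add (by norm_num)]
  norm_num

theorem fix (hR : S_REG) (hF : S_FREG) (hC : S_CUSP) (F : Fam) (hFM : F.M = Sm) (hFr : F.r = rs)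
    {D : ℝ} {n : ℕ} (hn : 1 ≤ n)
    (hD : Tendsto (fun X : ℝ => cnt X (fun a b => Sm a b ∧ rs a b = n) / X ^ 5) atTop (𝓝 (4 * D)))
    (s : Bool) {I : ℝ} (hI : Tendsto (fun M : ℝ => ∫ u in (-M)..M, Ls s u) atTop (𝓝 I))
    {κ : ℝ} (hκ : 1 < κ) (hκ2 : κ < 5 / 2) :
    Tendsto (fun X : ℝ => nc κ X s {n} / X ^ (5 / 6 : ℝ)) atTop (𝓝 (288 * √3 * D * I * (n : ℝ) ^ (5 / 6 : ℝ))) := by
  obtain ⟨C, hC0, hC⟩ := hC
  have hn0 : (0 : ℝ) < n := by exact_mod_cast hn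
  have hn1 : (1 : ℝ) ≤ n := by exact_mod_cast hn
  -- the scale
  obtain ⟨T, hT⟩ : ∃ T : ℝ → ℝ, T = fun X : ℝ => (1728 * (n : ℝ) * X) ^ (1 / 6 : ℝ) := ⟨_, rfl⟩
  obtain ⟨c, hc⟩ : ∃ c : ℝ, c = (1728 * (n : ℝ)) ^ (5 / 6 : ℝ) := ⟨_, rfl⟩
  have hc0 : 0 < c := by rw [hc]; positivity
  have hcn : c = 288 * √3 * (n : ℝ) ^ (5 / 6 : ℝ) := by
    rw [hc, Real.mul_rpow (by norm_num) hn0.le, r1728]
  have hT6 : ∀ X : ℝ, 0 < X → T X ^ 6 = 1728 * n * X := by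
    intro X hX
    rw [hT]
    simp only
    rw [← Real.rpow_natCast, ← Real.rpow_mul (by positivity)]
    norm_num
  have hT5 : ∀ X : ℝ, 0 < X → T X ^ 5 = c * X ^ (5 / 6 : ℝ) := by
    intro X hX
    rw [hT, hc]
    simp only
    rw [← Real.rpow_natCast, ← Real.rpow_mul (by positivity), ← Real.mul_rpow (by positivity) hX.le]
    norm_num
  have hTtop : Tendsto T atTop atTop := by
    rw [hT]
    exact (tendsto_rpow_atTop (by norm_num : (0 : ℝ) < 1 / 6)).comp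
      (tendsto_id.const_mul_atTop (by positivity : (0 : ℝ) < 1728 * n))
  obtain ⟨g, hg⟩ : ∃ g : ℕ → ℝ → ℝ, g = fun (M : ℕ) (X : ℝ) => cnt (((M : ℝ) + 2 + 1) * T X) (fun a b =>
    (|(a : ℝ)| ≤ ((M : ℝ) + 2) * T X ^ 2 ∧ Sg s a b ∧ |(a : ℝ) ^ 3 - (b : ℝ) ^ 2| ≤ T X ^ 6) ∧
      Sm a b ∧ rs a b = n) := ⟨_, rfl⟩
  have hMtop : Tendsto (fun M : ℕ => (M : ℝ) + 2) atTop atTop :=
    tendsto_atTop_add_const_right _ _ tendsto_natCast_atTop_atTop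
  have hg1 : ∀ M, Tendsto (fun X => g M X / X ^ (5 / 6 : ℝ)) atTop
      (𝓝 (c * (D * ∫ u in (-((M : ℝ) + 2))..((M : ℝ) + 2), Ls s u))) := by
    intro M
    have hM2 : (1 : ℝ) ≤ (M : ℝ) + 2 := by
      have : (0 : ℝ) ≤ M := Nat.cast_nonneg _
      linarith
    have h1 := ((reg_lim hR hF F hFM hFr hn hD s ((M : ℝ) + 2) hM2).comp hTtop).const_mul c
    refine h1.congr' ?_
    filter_upwards [eventually_gt_atTop (0 : ℝ)] with X hX
    simp only [Function.comp]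
    rw [hT5 X hX, hg]
    have hX6 : 0 < X ^ (5 / 6 : ℝ) := by positivity
    field_simp
  have hL : Tendsto (fun M : ℕ => c * (D * ∫ u in (-((M : ℝ) + 2))..((M : ℝ) + 2), Ls s u)) atTop
      (𝓝 (c * (D * I))) := ((hI.comp hMtop).const_mul D).const_mul c
  have he : Tendsto (fun M : ℕ => C * (c / √((M : ℝ) + 2)) + 1 / ((M : ℝ) + 1)) atTop (𝓝 0) := by
    have a1 : Tendsto (fun M : ℕ => √((M : ℝ) + 2)) atTop atTop := Real.tendsto_sqrt_atTop.comp hMtop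
    have a2 := (a1.const_div_atTop c).const_mul C
    have a3 := a2.add (tendsto_one_div_add_atTop_nhds_zero_nat (𝕜 := ℝ))
    simpa using a3
  have e : 288 * √3 * D * I * (n : ℝ) ^ (5 / 6 : ℝ) = c * (D * I) := by rw [hcn]; ring
  rw [e]
  refine lim_approx hg1 hL he ?_
  filter_upwards with M
  obtain ⟨W, hW⟩ : ∃ W : ℝ, W = (M : ℝ) + 2 := ⟨_, rfl⟩
  have hW2 : 2 ≤ W := by
    have : (0 : ℝ) ≤ M := Nat.cast_nonneg _
    rw [hW]; linarith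
  have hW0 : 0 < W := by linarith
  -- `Z` is large compared with `T`
  have b1 : ∀ᶠ X : ℝ in atTop, (W + 1) * T X ≤ X ^ (κ / 6) := by
    have h1 : Tendsto (fun X : ℝ => X ^ ((κ - 1) / 6)) atTop atTop := tendsto_rpow_atTop (by linarith)
    filter_upwards [h1.eventually_ge_atTop ((W + 1) * (1728 * n) ^ (1 / 6 : ℝ)),
      eventually_gt_atTop (0 : ℝ)] with X hX hX0
    rw [hT]
    simp only
    rw [Real.mul_rpow (by positivity) hX0.le, ← mul_assoc]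
    calc (W + 1) * (1728 * n) ^ (1 / 6 : ℝ) * X ^ (1 / 6 : ℝ) ≤ X ^ ((κ - 1) / 6) * X ^ (1 / 6 : ℝ) := by
          gcongr
      _ = X ^ (κ / 6) := by rw [← Real.rpow_add hX0]; congr 1; ring
  have b2 : ∀ᶠ X : ℝ in atTop, C * (X ^ (κ / 6)) ^ 2 / X ^ (5 / 6 : ℝ) ≤ 1 / ((M : ℝ) + 1) := by
    have h1 : Tendsto (fun X : ℝ => C * X ^ (-(5 / 6 - κ / 3))) atTop (𝓝 (C * 0)) :=
      (tendsto_rpow_neg_atTop (by linarith)).const_mul C
    rw [mul_zero] at h1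
    have h2 : (0 : ℝ) < 1 / ((M : ℝ) + 1) := by positivity
    filter_upwards [h1.eventually_le_const h2, eventually_gt_atTop (0 : ℝ)] with X hX hX0
    refine le_trans (le_of_eq ?_) hX
    rw [mul_div_assoc, ← Real.rpow_natCast, ← Real.rpow_mul hX0.le, ← Real.rpow_sub hX0]
    congr 2
    push_cast
    ring
  filter_upwards [b1, b2, eventually_ge_atTop (1 : ℝ), hTtop.eventually_ge_atTop 1] with X h1 h2 hX hT1
  have hX0 : 0 < X := by linarith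
  have hX56 : 0 < X ^ (5 / 6 : ℝ) := by positivity
  have hT0 : 0 < T X := by linarith
  have hZ1 : 1 ≤ X ^ (κ / 6) := Real.one_le_rpow hX (by linarith)
  have hgM : g M X = cnt ((W + 1) * T X) (fun a b => (|(a : ℝ)| ≤ W * T X ^ 2 ∧ Sg s a b ∧
      |(a : ℝ) ^ 3 - (b : ℝ) ^ 2| ≤ T X ^ 6) ∧ Sm a b ∧ rs a b = n) := by rw [hg, hW]
  have hup : nc κ X s {n} ≤ g M X + cnt (X ^ (κ / 6)) (fun a b => W * T X ^ 2 < |(a : ℝ)| ∧
      |(a : ℝ) ^ 3 - (b : ℝ) ^ 2| ≤ T X ^ 6) := by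
    have h3 : nc κ X s {n} ≤ cnt (X ^ (κ / 6)) (fun a b => ((|(a : ℝ)| ≤ W * T X ^ 2 ∧ Sg s a b ∧
        |(a : ℝ) ^ 3 - (b : ℝ) ^ 2| ≤ T X ^ 6) ∧ Sm a b ∧ rs a b = n) ∨ (W * T X ^ 2 < |(a : ℝ)| ∧
      |(a : ℝ) ^ 3 - (b : ℝ) ^ 2| ≤ T X ^ 6)) := by
      apply cnt_mono
      rintro a b ⟨q1, q2, q3, q4⟩
      have q4' : rs a b = n := q4
      have q5 := (nz_iff q2 q4' X).1 q3
      rw [← hT6 X hX0] at q5
      rcases le_or_gt |(a : ℝ)| (W * T X ^ 2) with q6 | q6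
      · left; exact ⟨⟨q6, q1, q5⟩, q2, q4'⟩
      · right; exact ⟨q6, q5⟩
    refine h3.trans ((cnt_or _ _ _).trans ?_)
    gcongr
    rw [hgM]
    apply cnt_le
    rintro a b - - ⟨⟨q1, q2, q3⟩, q4⟩
    refine ⟨?_, ?_, ⟨q1, q2, q3⟩, q4⟩
    · calc |(a : ℝ)| ≤ W * T X ^ 2 := q1
        _ ≤ (W + 1) ^ 2 * T X ^ 2 := by gcongr; nlinarith
        _ = ((W + 1) * T X) ^ 2 := by ring
    · have q5 : (b : ℝ) ^ 2 ≤ |(a : ℝ)| ^ 3 + T X ^ 6 := by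
        have r1 := (abs_le.1 q3).1
        have r2 : (a : ℝ) ^ 3 ≤ |(a : ℝ)| ^ 3 := by rw [← abs_pow]; exact le_abs_self _
        have r3 := (abs_le.1 q3).2
        linarith
      have q6 : |(b : ℝ)| ^ 2 ≤ (((W + 1) * T X) ^ 3) ^ 2 := by
        rw [sq_abs]
        calc (b : ℝ) ^ 2 ≤ |(a : ℝ)| ^ 3 + T X ^ 6 := q5
          _ ≤ (W * T X ^ 2) ^ 3 + T X ^ 6 := by gcongr
          _ = (W ^ 3 + 1) * T X ^ 6 := by ring
          _ ≤ (W + 1) ^ 6 * T X ^ 6 := by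
              gcongr
              have : 0 ≤ W ^ 2 := by positivity
              have e6 : (W + 1) ^ 6 = W ^ 6 + 6 * W ^ 5 + 15 * W ^ 4 + 20 * W ^ 3 + 15 * W ^ 2 + 6 * W + 1 := by
                ring
              rw [e6]
              have : 0 ≤ W ^ 3 := by positivity
              have : 0 ≤ W ^ 4 := by positivity
              have : 0 ≤ W ^ 5 := by positivity
              have : 0 ≤ W ^ 6 := by positivity
              linarith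
          _ = _ := by ring
      exact (pow_le_pow_iff_left₀ (abs_nonneg _) (by positivity) (by norm_num : 2 ≠ 0)).1 q6
  have hlo : g M X ≤ nc κ X s {n} := by
    rw [hgM]
    apply cnt_le
    rintro a b p1 p2 ⟨⟨q1, q2, q3⟩, q4, q5⟩
    refine ⟨?_, ?_, q2, q4, ?_, q5⟩
    · calc |(a : ℝ)| ≤ ((W + 1) * T X) ^ 2 := p1
        _ ≤ _ := by gcongr
    · calc |(b : ℝ)| ≤ ((W + 1) * T X) ^ 3 := p2
        _ ≤ _ := by gcongr
    · rw [nz_iff q4 q5, ← hT6 X hX0]; exact q3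
  have hcu := hC (X ^ (κ / 6)) (T X) W hZ1 hT1 hW2
  rw [← sub_div, abs_div, abs_of_pos hX56, abs_of_nonneg (by linarith), div_le_iff₀ hX56, ← hW]
  rw [div_le_iff₀ hX56] at h2
  calc nc κ X s {n} - g M X ≤ C * (T X ^ 5 / √W + (X ^ (κ / 6)) ^ 2) := by linarith
    _ = C * (c / √W) * X ^ (5 / 6 : ℝ) + C * (X ^ (κ / 6)) ^ 2 := by rw [hT5 X hX0]; ring
    _ ≤ C * (c / √W) * X ^ (5 / 6 : ℝ) + 1 / ((M : ℝ) + 1) * X ^ (5 / 6 : ℝ) := by gcongr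
    _ = _ := by ring

end Pool.Agent.U73.LC
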