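import Pool.Agent.U73.LC.Tv

set_option autoImplicit false

/-!
# Semistable curves ordered by the conductor: assembly (helper73)
-/

namespace Pool.Agent.U73.LC

open Finset Filter Topology
open Pool.Agent.U73.LR Pool.Agent.U73.LS

theorem Bc_pos : 0 < Bc := by
  unfold Bc
  have h1 := Real.Gamma_pos_of_pos (by norm_num : (0 : ℝ) < 1 / 6)
  have h2 := Real.Gamma_pos_of_pos (by norm_num : (0 : ℝ) < 1 / 2)
  have h3 := Real.Gamma_pos_of_pos (by norm_num : (0 : ℝ) < 2 / 3)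
  positivity

/-- the constants -/
noncomputable def cst : Bool → ℝ
  | true => √3 / (5 * Real.pi ^ 2) * Bc
  | false => 3 / (5 * Real.pi ^ 2) * Bc

/-- the weights of the signs -/
noncomputable def wt : Bool → ℝ
  | true => 1 / (1 + √3)
  | false => √3 / (1 + √3)

theorem cst_pos (s : Bool) : 0 < cst s := by
  have := Bc_pos
  have := Real.pi_pos
  cases s <;> unfold cst <;> positivity

theorem wt_eq (s : Bool) : cst s / (cst true + cst false) = wt s := by
  have h1 := Bc_pos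
  have h2 := Real.pi_pos
  have h3 : 0 < √3 := by positivity
  have h4 : √3 * √3 = 3 := Real.mul_self_sqrt (by norm_num)
  obtain ⟨k, hk⟩ : ∃ k : ℝ, k = Bc / (5 * Real.pi ^ 2) := ⟨_, rfl⟩
  have hk0 : 0 < k := by rw [hk]; positivity
  have e1 : cst true = √3 * k := by unfold cst; rw [hk]; ring
  have e2 : cst false = 3 * k := by unfold cst; rw [hk]; ring
  have e3 : cst true + cst false = √3 * (1 + √3) * k := by rw [e1, e2, mul_add, h4]; ring
  rw [e3]
  cases s
  · rw [e2]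
    unfold wt
    rw [div_eq_div_iff (by positivity) (by positivity)]
    linear_combination (-(1 + √3) * k) * h4
  · rw [e1]
    unfold wt
    field_simp

theorem ratio_close {x y σ Y e ε : ℝ} (hY : 0 < Y) (he : 0 ≤ e) (h1 : |x - σ| ≤ e) (h2 : |y - Y| ≤ 2 * e)
    (hσ0 : 0 ≤ σ) (hσ : σ ≤ Y) (h3 : e ≤ Y / 4) (h4 : 6 * e ≤ ε * Y) : |x / y - σ / Y| ≤ ε := by
  have h5 := abs_le.1 h2
  have hy : Y / 2 ≤ y := by linarith [h5.1]
  have hy0 : 0 < y := by linarith
  have e3 : x / y - σ / Y = ((x - σ) * Y + σ * (Y - y)) / (y * Y) := by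
    field_simp
    ring
  have hε : 0 ≤ ε := by
    by_contra hcon
    push Not at hcon
    nlinarith
  rw [e3, abs_div, abs_of_pos (mul_pos hy0 hY), div_le_iff₀ (mul_pos hy0 hY)]
  have h7 : |(x - σ) * Y + σ * (Y - y)| ≤ e * Y + Y * (2 * e) := by
    refine (abs_add_le _ _).trans (add_le_add ?_ ?_)
    · rw [abs_mul, abs_of_pos hY]; gcongr
    · rw [abs_mul, abs_of_nonneg hσ0, abs_sub_comm]
      exact mul_le_mul hσ h2 (abs_nonneg _) hY.le
  refine h7.trans ?_
  have h8 : 3 * e ≤ ε * y := by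
    calc 3 * e = (6 * e) / 2 := by ring
      _ ≤ (ε * Y) / 2 := by linarith
      _ = ε * (Y / 2) := by ring
      _ ≤ ε * y := by gcongr
  calc e * Y + Y * (2 * e) = (3 * e) * Y := by ring
    _ ≤ (ε * y) * Y := by gcongr
    _ = ε * (y * Y) := by ring

/-- the statement -/
def S_LAW : Prop := ∃ (ν : ℕ → ℝ) (Q : ℝ), 0 < Q ∧ (∀ m, 0 ≤ ν m) ∧ ν 0 = 0 ∧ HasSum ν 1 ∧
  Tendsto (fun z => ∏ p ∈ Nat.primesBelow z,
    (1 + (((p : ℝ) - 1) / ((p : ℝ) ^ (1 / 6 : ℝ) - 1) - 1) / ((p : ℝ) * ((p : ℝ) + 1)))) atTop (𝓝 Q) ∧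
  Tendsto (fun z => ∏ p ∈ Nat.primesBelow z, (1 - 1 / ((p : ℝ) * ((p : ℝ) + 1)))) atTop (𝓝 (ν 1 * Q)) ∧
  (∀ n : ℕ, 1 ≤ n → ν n = ν 1 * (n : ℝ) ^ (-(1 / 6) : ℝ) *
    ∏ p ∈ n.primeFactors, (((p : ℝ) - 1) / ((p : ℝ) ^ 2 + p - 1))) ∧
  ∀ κ : ℝ, 1 < κ → κ < 5 / 4 →
    (∀ s : Bool, Tendsto (fun X : ℝ => nc κ X s Set.univ / X ^ (5 / 6 : ℝ)) atTop (𝓝 (cst s * Q))) ∧
    ∀ ε : ℝ, 0 < ε → ∃ X₀ : ℝ, ∀ X : ℝ, X₀ ≤ X → 0 < nc κ X true Set.univ + nc κ X false Set.univ ∧
      ∀ (s : Bool) (A : Set ℕ), |nc κ X s A / (nc κ X true Set.univ + nc κ X false Set.univ) -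
        wt s * ∑' m, A.indicator ν m| ≤ ε

theorem law (hR : S_REG) (hF : S_FREG) (hC : S_CUSP) (hTN : S_TN) (hA : S_AREA) (hE : S_EUP)
    (hfam : ∃ F : Fam, F.M = Sm ∧ F.r = rs) : S_LAW := by
  classical
  obtain ⟨F, hFM, hFr⟩ := hfam
  obtain ⟨hT, μ, m1, m2, m3, m4, -, m6, m7, -, -, -, -⟩ := Pool.Agent.U73.LS.all
  obtain ⟨hs, hP⟩ := hE μ m1 m2 m3 m6 m7
  obtain ⟨Q, hQ⟩ : ∃ Q : ℝ, Q = ∑' n : ℕ, (n : ℝ) ^ (5 / 6 : ℝ) * μ n := ⟨_, rfl⟩
  rw [← hQ] at hP
  have hμ1 : 0 < μ 1 := by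
    rcases (m1 1).lt_or_eq with h | h
    · exact h
    · exfalso
      have h0 : ∀ n, μ n = 0 := by
        intro n
        rcases Nat.eq_zero_or_pos n with h1 | h1
        · rw [h1, m2]
        · rw [m7 n h1, ← h]; simp
      have h1 : HasSum μ 0 := by
        have : μ = fun _ => 0 := funext h0
        rw [this]; exact hasSum_zero
      have := m3.unique h1
      norm_num at this
  have hg0 : ∀ n : ℕ, 0 ≤ (n : ℝ) ^ (5 / 6 : ℝ) * μ n := fun n => mul_nonneg (by positivity) (m1 n)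
  have hQ0 : 0 < Q := by
    have h1 := hs.le_tsum 1 (fun n _ => hg0 n)
    rw [← hQ] at h1
    have : ((1 : ℕ) : ℝ) ^ (5 / 6 : ℝ) * μ 1 = μ 1 := by norm_num
    linarith
  have hind : ∀ (k : ℝ) (A : Set ℕ), ∑' m, A.indicator (fun n : ℕ => k * ((n : ℝ) ^ (5 / 6 : ℝ) * μ n)) m =
      k * Q * ∑' m, A.indicator (fun n : ℕ => (n : ℝ) ^ (5 / 6 : ℝ) * μ n / Q) m := by
    intro k A
    rw [← tsum_mul_left]
    refine tsum_congr fun m => ?_
    by_cases hm : m ∈ A
    · rw [Set.indicator_of_mem hm, Set.indicator_of_mem hm]; field_simp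
    · rw [Set.indicator_of_notMem hm, Set.indicator_of_notMem hm, mul_zero]
  have hν : HasSum (fun n : ℕ => (n : ℝ) ^ (5 / 6 : ℝ) * μ n / Q) 1 := by
    have h1 := hs.hasSum
    rw [← hQ] at h1
    have := h1.div_const Q
    rwa [div_self hQ0.ne'] at this
  refine ⟨fun n => (n : ℝ) ^ (5 / 6 : ℝ) * μ n / Q, Q, hQ0, fun n => div_nonneg (hg0 n) hQ0.le, ?_, hν,
    hP, ?_, ?_, ?_⟩
  · simp [m2]
  · have e : ((1 : ℕ) : ℝ) ^ (5 / 6 : ℝ) * μ 1 / Q * Q = μ 1 := by
      rw [div_mul_cancel₀ _ hQ0.ne']; norm_num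
    simp only [e]
    exact m6
  · intro n hn
    have hn0 : (0 : ℝ) < n := by exact_mod_cast hn
    have e1 : (n : ℝ) ^ (5 / 6 : ℝ) * (1 / n) = (n : ℝ) ^ (-(1 / 6) : ℝ) := by
      rw [one_div, ← Real.rpow_neg_one, ← Real.rpow_add hn0]; norm_num
    have e0 : ((1 : ℕ) : ℝ) ^ (5 / 6 : ℝ) = 1 := by norm_num
    beta_reduce
    rw [m7 n hn, ← e1, e0]
    ring
  · intro κ hκ hκ2
    have hδ : ∀ (s : Bool) (n : ℕ), Tendsto (fun X : ℝ => nc κ X s {n} / X ^ (5 / 6 : ℝ)) atTop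
        (𝓝 (cst s * ((n : ℝ) ^ (5 / 6 : ℝ) * μ n))) := by
      intro s n
      rcases Nat.eq_zero_or_pos n with h0 | h0
      · subst h0
        simp only [nc_zero, m2, zero_div, mul_zero]
        exact tendsto_const_nhds
      · have hD := pm_lim hT m4 n
        have h2 := Real.pi_pos
        have h3 : √3 * √3 = 3 := Real.mul_self_sqrt (by norm_num)
        cases s
        · have h1 := fix hR hF hC F hFM hFr h0 hD false hA.2 hκ (by linarith)
          have e : 288 * √3 * (μ n / (576 * Real.pi ^ 2)) * (√3 * (2 / 5 * Bc)) * (n : ℝ) ^ (5 / 6 : ℝ) =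
              cst false * ((n : ℝ) ^ (5 / 6 : ℝ) * μ n) := by
            unfold cst
            have : 288 * √3 * (μ n / (576 * Real.pi ^ 2)) * (√3 * (2 / 5 * Bc)) * (n : ℝ) ^ (5 / 6 : ℝ) =
                288 * (√3 * √3) * (μ n / (576 * Real.pi ^ 2)) * ((2 / 5 * Bc)) * (n : ℝ) ^ (5 / 6 : ℝ) := by
              ring
            rw [this, h3]
            field_simp
            ring
          rw [e] at h1
          exact h1
        · have h1 := fix hR hF hC F hFM hFr h0 hD true hA.1 hκ (by linarith)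
          have e : 288 * √3 * (μ n / (576 * Real.pi ^ 2)) * (2 / 5 * Bc) * (n : ℝ) ^ (5 / 6 : ℝ) =
              cst true * ((n : ℝ) ^ (5 / 6 : ℝ) * μ n) := by
            unfold cst
            field_simp
            ring
          rw [e] at h1
          exact h1
    have hδ0 : ∀ (s : Bool) (n : ℕ), 0 ≤ cst s * ((n : ℝ) ^ (5 / 6 : ℝ) * μ n) := fun s n =>
      mul_nonneg (cst_pos s).le (hg0 n)
    have hδs : ∀ s : Bool, Summable (fun n : ℕ => cst s * ((n : ℝ) ^ (5 / 6 : ℝ) * μ n)) := fun s =>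
      hs.mul_left _
    have hν0 : ∀ n : ℕ, 0 ≤ (n : ℝ) ^ (5 / 6 : ℝ) * μ n / Q := fun n => div_nonneg (hg0 n) hQ0.le
    have huniv : ∑' m, (Set.univ : Set ℕ).indicator (fun n : ℕ => (n : ℝ) ^ (5 / 6 : ℝ) * μ n / Q) m = 1 := by
      rw [Set.indicator_univ]; exact hν.tsum_eq
    refine ⟨fun s => ?_, fun ε hε => ?_⟩
    · have h1 := nc_lim hTN hκ hκ2 s (hδ0 s) (hδs s) (hδ s) Set.univ
      rw [hind, huniv, mul_one] at h1
      exact h1
    · obtain ⟨Y, hY⟩ : ∃ Y : ℝ, Y = (cst true + cst false) * Q := ⟨_, rfl⟩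
      have hc1 := cst_pos true
      have hc2 := cst_pos false
      have hY0 : 0 < Y := by rw [hY]; positivity
      obtain ⟨e, he⟩ : ∃ e : ℝ, e = min (Y / 4) (ε * Y / 6) := ⟨_, rfl⟩
      have he0 : 0 < e := by rw [he]; exact lt_min (by positivity) (by positivity)
      have he1 : e ≤ Y / 4 := by rw [he]; exact min_le_left _ _
      have he2 : e ≤ ε * Y / 6 := by rw [he]; exact min_le_right _ _
      obtain ⟨X₀, hX₀⟩ := eventually_atTop.1 (((nc_tv hTN hκ hκ2 true (hδ0 true) (hδs true) (hδ true) e he0).and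
        (nc_tv hTN hκ hκ2 false (hδ0 false) (hδs false) (hδ false) e he0)).and (eventually_gt_atTop (0 : ℝ)))
      refine ⟨X₀, fun X hX => ?_⟩
      obtain ⟨⟨g1, g2⟩, hX0⟩ := hX₀ X hX
      have hX5 : 0 < X ^ (5 / 6 : ℝ) := by positivity
      have g : ∀ (s : Bool) (A : Set ℕ), |nc κ X s A / X ^ (5 / 6 : ℝ) -
          cst s * Q * ∑' m, A.indicator (fun n : ℕ => (n : ℝ) ^ (5 / 6 : ℝ) * μ n / Q) m| ≤ e := by
        intro s A
        rw [← hind]
        cases s
        · exact g2 A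
        · exact g1 A
      obtain ⟨y, hy⟩ : ∃ y : ℝ, y = (nc κ X true Set.univ + nc κ X false Set.univ) / X ^ (5 / 6 : ℝ) :=
        ⟨_, rfl⟩
      have hyY : |y - Y| ≤ 2 * e := by
        have q1 := abs_le.1 (g true Set.univ)
        have q2 := abs_le.1 (g false Set.univ)
        rw [huniv, mul_one] at q1 q2
        rw [hy, hY, add_div, abs_le]
        constructor <;> linarith [q1.1, q1.2, q2.1, q2.2]
      have hy0 : 0 < y := by
        have := (abs_le.1 hyY).1
        linarith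
      refine ⟨?_, fun s A => ?_⟩
      · rw [hy] at hy0
        exact (div_pos_iff_of_pos_right hX5).1 hy0
      · obtain ⟨t, ht⟩ : ∃ t : ℝ, t = ∑' m, A.indicator (fun n : ℕ => (n : ℝ) ^ (5 / 6 : ℝ) * μ n / Q) m :=
          ⟨_, rfl⟩
        have ht0 : 0 ≤ t := by
          rw [ht]; exact tsum_nonneg fun m => Set.indicator_nonneg (fun _ _ => hν0 _) _
        have ht1 : t ≤ 1 := by
          rw [ht, ← huniv]
          refine Summable.tsum_le_tsum (fun m => ?_) (hν.summable.indicator A)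
            (hν.summable.indicator Set.univ)
          rw [Set.indicator_univ]
          exact Set.indicator_le_self' (fun _ _ => hν0 _) _
        have h1 := g s A
        rw [← ht] at h1 ⊢
        have e1 : nc κ X s A / (nc κ X true Set.univ + nc κ X false Set.univ) =
            (nc κ X s A / X ^ (5 / 6 : ℝ)) / y := by
          rw [hy, div_div_div_cancel_right₀ hX5.ne']
        have e2 : wt s * t = (cst s * Q * t) / Y := by
          rw [hY, ← wt_eq s]
          field_simp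
        rw [e1, e2]
        have hcs : cst s ≤ cst true + cst false := by
          cases s <;> linarith
        have hcs0 := cst_pos s
        refine ratio_close hY0 he0.le h1 hyY (by positivity) ?_ he1 (by linarith)
        rw [hY]
        calc cst s * Q * t ≤ cst s * Q * 1 := by gcongr
          _ ≤ (cst true + cst false) * Q * 1 := by gcongr
          _ = _ := by ring

end Pool.Agent.U73.LC
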