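import Pool.Agent.U73.LC.Fix2

set_option autoImplicit false

/-!
# Semistable curves ordered by the conductor: total variation (helper73)
-/

namespace Pool.Agent.U73.LC

open Finset Filter Topology
open Pool.Agent.U73.LR Pool.Agent.U73.LS

theorem nc_nonneg (κ X : ℝ) (s : Bool) (A : Set ℕ) : 0 ≤ nc κ X s A := cnt_nonneg _ _

theorem nc_mono (κ X : ℝ) (s : Bool) {A B : Set ℕ} (h : A ⊆ B) : nc κ X s A ≤ nc κ X s B := by
  apply cnt_mono
  rintro a b ⟨h1, h2, h3, h4⟩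
  exact ⟨h1, h2, h3, h h4⟩

theorem nc_add (κ X : ℝ) (s : Bool) {A B C : Set ℕ} (h : ∀ m, m ∈ C ↔ m ∈ A ∨ m ∈ B)
    (hd : ∀ m, ¬ (m ∈ A ∧ m ∈ B)) : nc κ X s C = nc κ X s A + nc κ X s B := by
  apply cnt_add
  · intro a b
    have := h (rs a b)
    tauto
  · rintro a b ⟨⟨-, -, -, h1⟩, ⟨-, -, -, h2⟩⟩
    exact hd _ ⟨h1, h2⟩

theorem nc_zero (κ X : ℝ) (s : Bool) : nc κ X s {0} = 0 := by
  unfold nc
  apply cnt_false
  rintro a b ⟨-, h2, -, h4⟩
  have h5 := (fact.1 a b h2).2.2.2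
  have h6 : rs a b = 0 := h4
  omega

open Classical in
theorem nc_split (κ X : ℝ) (s : Bool) (A : Set ℕ) (N : ℕ) : nc κ X s A =
    ∑ m ∈ range N, (if m ∈ A then nc κ X s {m} else 0) + nc κ X s (A ∩ {m | N ≤ m}) := by
  induction N with
  | zero =>
    rw [Finset.sum_range_zero, zero_add]
    congr 1
    ext m
    simp
  | succ N ih =>
    rw [ih, Finset.sum_range_succ, add_assoc]
    congr 1
    by_cases hN : N ∈ A
    · rw [if_pos hN]
      apply nc_add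
      · intro m
        simp only [Set.mem_inter_iff, Set.mem_ofPred_eq, Set.mem_singleton_iff]
        constructor
        · rintro ⟨h1, h2⟩
          by_cases h3 : m = N
          · left; exact h3
          · right; exact ⟨h1, by omega⟩
        · rintro (h | ⟨h1, h2⟩)
          · exact ⟨by rw [h]; exact hN, by omega⟩
          · exact ⟨h1, by omega⟩
      · rintro m ⟨h1, h2⟩
        simp only [Set.mem_inter_iff, Set.mem_ofPred_eq, Set.mem_singleton_iff] at h1 h2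
        omega
    · rw [if_neg hN, zero_add]
      congr 1
      ext m
      simp only [Set.mem_inter_iff, Set.mem_ofPred_eq]
      constructor
      · rintro ⟨h1, h2⟩
        refine ⟨h1, ?_⟩
        rcases Nat.lt_or_ge N m with h3 | h3
        · omega
        · exfalso
          apply hN
          have : m = N := by omega
          rwa [this] at h1
      · rintro ⟨h1, h2⟩
        exact ⟨h1, by omega⟩

/-- the tail is small -/
theorem nc_tail (hTN : S_TN) {κ : ℝ} (hκ : 1 < κ) (hκ2 : κ < 5 / 4) (ε : ℝ) (hε : 0 < ε) :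
    ∃ K : ℕ, ∀ N : ℕ, K ≤ N → ∀ᶠ X : ℝ in atTop, ∀ s : Bool,
      nc κ X s {m | N ≤ m} ≤ ε * X ^ (5 / 6 : ℝ) := by
  obtain ⟨η, hη⟩ : ∃ η : ℝ, η = min (1 / 12) ((5 / 6 - 2 * κ / 3) / 2) := ⟨_, rfl⟩
  have h0 : 0 < (5 / 6 - 2 * κ / 3) / 2 := by linarith
  have hη0 : 0 < η := by rw [hη]; exact lt_min (by norm_num) h0
  have hη1 : η ≤ 1 / 12 := by rw [hη]; exact min_le_left _ _
  have hη2 : η ≤ (5 / 6 - 2 * κ / 3) / 2 := by rw [hη]; exact min_le_right _ _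
  obtain ⟨C, hC, h⟩ := hTN κ η hκ hκ2 hη0
  have t1 : Tendsto (fun N : ℕ => C * (N : ℝ) ^ (-(1 / 12) : ℝ)) atTop (𝓝 0) := by
    have := (tendsto_rpow_neg_atTop (by norm_num : (0 : ℝ) < 1 / 12)).comp tendsto_natCast_atTop_atTop
    have := this.const_mul C
    simpa using this
  have t2 : Tendsto (fun X : ℝ => C * X ^ (-((5 / 6 - 2 * κ / 3) / 2))) atTop (𝓝 0) := by
    have := (tendsto_rpow_neg_atTop h0).const_mul C
    simpa using this
  obtain ⟨K, hK⟩ := eventually_atTop.1 ((eventually_ge_atTop 1).and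
    (t1.eventually_lt_const (by linarith : (0 : ℝ) < ε / 2)))
  refine ⟨K, fun N hN => ?_⟩
  obtain ⟨hN1, hN2⟩ := hK N hN
  filter_upwards [eventually_ge_atTop (1 : ℝ), t2.eventually_lt_const (by linarith : (0 : ℝ) < ε / 2)]
    with X hX hX2 s
  have hX0 : 0 < X := by linarith
  have hNR : (1 : ℝ) ≤ N := by exact_mod_cast hN1
  have h1 := h X N hX hNR
  have h2 : nc κ X s {m | N ≤ m} ≤ cnt (X ^ (κ / 6)) (fun a b => Sm a b ∧ (Nz a b : ℝ) ≤ X ∧
      (N : ℝ) ≤ rs a b) := by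
    apply cnt_mono
    rintro a b ⟨k1, k2, k3, k4⟩
    exact ⟨k2, k3, by exact_mod_cast k4⟩
  have e1 : (N : ℝ) ^ (-(1 / 6) + η) ≤ (N : ℝ) ^ (-(1 / 12) : ℝ) :=
    Real.rpow_le_rpow_of_exponent_le hNR (by linarith)
  have e2 : X ^ (2 * κ / 3 + η) ≤ X ^ (-((5 / 6 - 2 * κ / 3) / 2)) * X ^ (5 / 6 : ℝ) := by
    rw [← Real.rpow_add hX0]
    exact Real.rpow_le_rpow_of_exponent_le hX (by linarith)
  have p : 0 < X ^ (5 / 6 : ℝ) := by positivity
  calc nc κ X s {m | N ≤ m} ≤ _ := h2.trans h1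
    _ ≤ C * (X ^ (5 / 6 : ℝ) * (N : ℝ) ^ (-(1 / 12) : ℝ) +
        X ^ (-((5 / 6 - 2 * κ / 3) / 2)) * X ^ (5 / 6 : ℝ)) := by gcongr
    _ = (C * (N : ℝ) ^ (-(1 / 12) : ℝ) + C * X ^ (-((5 / 6 - 2 * κ / 3) / 2))) * X ^ (5 / 6 : ℝ) := by ring
    _ ≤ (ε / 2 + ε / 2) * X ^ (5 / 6 : ℝ) := by gcongr
    _ = _ := by ring

open Classical in
/-- total variation -/
theorem nc_tv (hTN : S_TN) {κ : ℝ} (hκ : 1 < κ) (hκ2 : κ < 5 / 4) (s : Bool) {δ : ℕ → ℝ}
    (h0 : ∀ m, 0 ≤ δ m) (hs : Summable δ)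
    (hδ : ∀ m, Tendsto (fun X : ℝ => nc κ X s {m} / X ^ (5 / 6 : ℝ)) atTop (𝓝 (δ m))) (ε : ℝ)
    (hε : 0 < ε) :
    ∀ᶠ X : ℝ in atTop, ∀ A : Set ℕ, |nc κ X s A / X ^ (5 / 6 : ℝ) - ∑' m, A.indicator δ m| ≤ ε := by
  obtain ⟨K, hK⟩ := nc_tail hTN hκ hκ2 (ε / 2) (by linarith)
  have t1 : Tendsto (fun N : ℕ => ∑' m, δ (m + N)) atTop (𝓝 0) := tendsto_sum_nat_add δ
  obtain ⟨N, hN1, hN2⟩ := ((eventually_ge_atTop K).and (t1.eventually_lt_const
    (by linarith : (0 : ℝ) < ε / 4))).exists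
  have t4 : Tendsto (fun X : ℝ => ∑ m ∈ range N, |nc κ X s {m} / X ^ (5 / 6 : ℝ) - δ m|) atTop (𝓝 0) := by
    have : Tendsto (fun X : ℝ => ∑ m ∈ range N, |nc κ X s {m} / X ^ (5 / 6 : ℝ) - δ m|) atTop
        (𝓝 (∑ m ∈ range N, |δ m - δ m|)) :=
      tendsto_finsetSum _ fun m _ => ((hδ m).sub_const _).abs
    simpa using this
  filter_upwards [eventually_ge_atTop (1 : ℝ), hK N hN1,
    t4.eventually_lt_const (by linarith : (0 : ℝ) < ε / 4)] with X hX h3 h4 A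
  have hX0 : 0 < X := by linarith
  have hX5 : 0 < X ^ (5 / 6 : ℝ) := by positivity
  have h6 : nc κ X s (A ∩ {m | N ≤ m}) ≤ nc κ X s {m | N ≤ m} := nc_mono _ _ _ Set.inter_subset_right
  have h7 : nc κ X s (A ∩ {m | N ≤ m}) / X ^ (5 / 6 : ℝ) ≤ ε / 2 := by
    rw [div_le_iff₀ hX5]
    exact h6.trans (h3 s)
  have h8 : 0 ≤ nc κ X s (A ∩ {m | N ≤ m}) / X ^ (5 / 6 : ℝ) := div_nonneg (nc_nonneg _ _ _ _) hX5.le
  have hsi : Summable (A.indicator δ) := hs.indicator A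
  have h9 : ∑' m, A.indicator δ m = ∑ m ∈ range N, A.indicator δ m + ∑' m, A.indicator δ (m + N) :=
    (hsi.sum_add_tsum_nat_add N).symm
  have h10 : ∑' m, A.indicator δ (m + N) ≤ ∑' m, δ (m + N) := by
    refine Summable.tsum_le_tsum (fun m => ?_) ((summable_nat_add_iff N).2 hsi)
      ((summable_nat_add_iff N).2 hs)
    exact Set.indicator_le_self' (fun _ _ => h0 _) _
  have h11 : 0 ≤ ∑' m, A.indicator δ (m + N) :=
    tsum_nonneg fun m => Set.indicator_nonneg (fun _ _ => h0 _) _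
  have h12 : |∑ m ∈ range N, (if m ∈ A then nc κ X s {m} else 0) / X ^ (5 / 6 : ℝ) -
      ∑ m ∈ range N, A.indicator δ m| ≤ ε / 4 := by
    rw [← Finset.sum_sub_distrib]
    refine (Finset.abs_sum_le_sum_abs _ _).trans (le_trans (Finset.sum_le_sum fun m _ => ?_) h4.le)
    by_cases hm : m ∈ A
    · rw [if_pos hm, Set.indicator_of_mem hm]
    · rw [if_neg hm, Set.indicator_of_notMem hm, zero_div, sub_zero, abs_zero]
      exact abs_nonneg _
  rw [nc_split κ X s A N, add_div, Finset.sum_div, h9]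
  rw [abs_le] at h12 ⊢
  constructor
  · linarith [h12.1]
  · linarith [h12.2]

theorem nc_lim (hTN : S_TN) {κ : ℝ} (hκ : 1 < κ) (hκ2 : κ < 5 / 4) (s : Bool) {δ : ℕ → ℝ}
    (h0 : ∀ m, 0 ≤ δ m) (hs : Summable δ)
    (hδ : ∀ m, Tendsto (fun X : ℝ => nc κ X s {m} / X ^ (5 / 6 : ℝ)) atTop (𝓝 (δ m))) (A : Set ℕ) :
    Tendsto (fun X : ℝ => nc κ X s A / X ^ (5 / 6 : ℝ)) atTop (𝓝 (∑' m, A.indicator δ m)) := by
  rw [Metric.tendsto_nhds]
  intro ε hε
  filter_upwards [nc_tv hTN hκ hκ2 s h0 hs hδ (ε / 2) (by linarith)] with X hX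
  rw [Real.dist_eq]
  have := hX A
  linarith

end Pool.Agent.U73.LC
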